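import Pool.Agent.Helper38.DAF.SFG

/-! DAF row CPT (Nullstellensatz at a closed point). -/

open AlgebraicGeometry CategoryTheory TopologicalSpace Opposite

namespace Pool.Agent.Helper15.DAF

/-- (CPT) -/
theorem st_CPT : ST_CPT := by
  intro X _ s _ x hx V hxV b hb
  letI : Algebra ℂ Γ(X, V.U) := (S38.cst s V).toAlgebra
  have hft : Algebra.FiniteType ℂ Γ(X, V.U) := S38.cst_finiteType s V
  obtain ⟨g, hg⟩ : ∃ g : Γ(X, V.U), ev s V g = b := hb
  set m : Ideal Γ(X, V.U) := (V.aff.primeIdealOf ⟨x, hxV⟩).asIdeal with hm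
  have hmax : m.IsMaximal := V.aff.primeIdealOf_isMaximal_of_isClosed ⟨x, hxV⟩ hx
  letI : Field (Γ(X, V.U) ⧸ m) := Ideal.Quotient.field m
  have hft2 : Algebra.FiniteType ℂ (Γ(X, V.U) ⧸ m) :=
    Algebra.FiniteType.of_surjective (Ideal.Quotient.mkₐ ℂ m) (Ideal.Quotient.mkₐ_surjective ℂ m)
  have hfin : Module.Finite ℂ (Γ(X, V.U) ⧸ m) := finite_of_finite_type_of_isJacobsonRing _ _
  obtain ⟨c, hc⟩ := (IsAlgClosed.algebraMap_bijective_of_isIntegral (k := ℂ)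
    (K := Γ(X, V.U) ⧸ m)).2 (Ideal.Quotient.mk m g)
  have hmem : g - S38.cst s V c ∈ m := by
    rw [← Ideal.Quotient.eq, ← hc]
    rfl
  refine ⟨c, g - S38.cst s V c, ?_, ?_⟩
  · intro h
    have h2 := (V.aff.fromSpec_image_basicOpen (g - S38.cst s V c))
    rw [← h2] at h
    obtain ⟨y, hy, hyx⟩ := h
    have h3 : y = V.aff.primeIdealOf ⟨x, hxV⟩ := by
      apply V.aff.fromSpec.isOpenEmbedding.injective
      exact Eq.trans hyx (V.aff.fromSpec_primeIdealOf ⟨x, hxV⟩).symm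
    rw [h3] at hy
    exact hy hmem
  · rw [map_sub, S38.ev_cst, hg]
    rfl

end Pool.Agent.Helper15.DAF
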