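import Pool.Agent.Helper15.DAF.Stmts
import Pool.Agent.Helper2.DAF.SMONO

/-! DAF rows VAN and VANLOC. -/

open AlgebraicGeometry CategoryTheory TopologicalSpace Opposite

namespace Pool.Agent.Helper15.DAF

namespace S44

variable {X : Scheme.{0}} [IsIntegral X] (s : X ⟶ Spec (CommRingCat.of ℂ))

theorem ev_inj (V : Aff X) : Function.Injective (ev s V) :=
  X.germToFunctionField_injective V.U

omit [IsIntegral X] in
theorem not_mem_add {U : X.Opens} (x : X) (f g : Γ(X, U)) (hf : x ∉ X.basicOpen f)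
    (hg : x ∉ X.basicOpen g) : x ∉ X.basicOpen (f + g) := by
  intro h
  have hx : x ∈ U := X.basicOpen_le _ h
  rw [Scheme.mem_basicOpen _ _ _ hx] at hf hg h
  rw [map_add] at h
  rcases IsLocalRing.isUnit_or_isUnit_of_isUnit_add h with h | h
  · exact hf h
  · exact hg h

end S44

open S44

/-- (VAN) -/
theorem st_VAN : ST_VAN := by
  intro X _ s x V
  refine ⟨⟨0, ?_, map_zero _⟩, ?_, ?_, ?_, ?_, ?_⟩
  · rw [Scheme.basicOpen_zero]
    exact fun h => h
  · rintro _ ⟨f, hf, rfl⟩ _ ⟨g, hg, rfl⟩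
    exact ⟨f + g, not_mem_add x f g hf hg, map_add _ _ _⟩
  · intro b hb
    rintro _ ⟨f, hf, rfl⟩
    obtain ⟨g, rfl⟩ := (S2.mem_O s).1 hb
    refine ⟨g * f, ?_, map_mul _ _ _⟩
    rw [Scheme.basicOpen_mul]
    exact fun h => hf h.2
  · rintro _ ⟨f, -, rfl⟩
    exact (S2.mem_O s).2 ⟨f, rfl⟩
  · rintro hx ⟨f, hf, h1⟩
    have h2 : f = 1 := ev_inj s V (h1.trans (map_one _).symm)
    rw [h2, Scheme.basicOpen_of_isUnit _ isUnit_one] at hf
    exact hf hx
  · intro hx
    exact ⟨1, fun h => hx (X.basicOpen_le _ h), map_one _⟩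

/-- (VANLOC) -/
theorem st_VANLOC : ST_VANLOC := by
  intro X _ s x V W
  have hres : ∀ (h : W.U ≤ V.U) (f : Γ(X, V.U)), x ∉ X.basicOpen f →
      x ∉ X.basicOpen (X.presheaf.map (homOfLE h).op f) := by
    intro h f hf
    rw [Scheme.basicOpen_res]
    exact fun h' => hf h'.2
  refine ⟨?_, ?_⟩
  · rintro h _ ⟨f, hf, rfl⟩
    exact ⟨_, hres h f hf, S2.ev_res s V W h f⟩
  · rintro f hW _ ⟨g, hg, rfl⟩
    have hle : W.U ≤ V.U := hW.trans_le (X.basicOpen_le f)
    obtain ⟨n, hn⟩ := (st_SLOC X s V W f hW).surj (ev s W g) ((S2.mem_O s).2 ⟨g, rfl⟩)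
    obtain ⟨m, hm⟩ := (S2.mem_O s).1 hn
    refine ⟨n + 1, f * m, ?_, ?_⟩
    · rw [Scheme.basicOpen_mul]
      rintro ⟨h1, h2⟩
      have hxW : x ∈ W.U := by
        rw [hW]
        exact h1
      have h3 : X.presheaf.map (homOfLE hle).op m =
          (X.presheaf.map (homOfLE hle).op f) ^ n * g := by
        apply ev_inj s W
        rw [S2.ev_res, hm, map_mul, map_pow, S2.ev_res]
      have h4 : x ∈ X.basicOpen (X.presheaf.map (homOfLE hle).op m) := by
        rw [Scheme.basicOpen_res]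
        exact ⟨hxW, h2⟩
      rw [h3, Scheme.basicOpen_mul] at h4
      exact hg h4.2
    · rw [map_mul, hm, pow_succ]
      ring

end Pool.Agent.Helper15.DAF
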